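import Pool.Agent.H73.GWQ.Stmts

/-!
# Row H4T of board `gwq`: the four point inequality in a tree
-/

set_option autoImplicit false

open Classical

namespace GWQ

theorem H4T (V : Type*) : H4TStmt V := by
  intro T hT x y z w
  obtain ⟨c1, c2, c3⟩ := GWT.cen_spec hT x y z
  generalize GWT.cen hT x y z = m at c1 c2 c3
  have t := GWT.dtri hT z m w
  have e1 := GWT.dcomm (T := T) z m
  have e2 := GWT.dcomm (T := T) y m
  by_cases h : GWT.Bt T w m x
  · have h' := GWT.Bt.symm h
    refine le_trans ?_ (le_max_right _ _)
    unfold GWT.Bt at *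
    omega
  · have h' : GWT.Bt T y m w := GWT.SID hT (GWT.Bt.symm c1) h
    refine le_trans ?_ (le_max_left _ _)
    unfold GWT.Bt at *
    omega

end GWQ
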